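import Pool.Agent.MWLE.StmtsA

/-!
# MWLE, row PRC: the first parts of the word `w1`
-/

namespace Pool.Agent.MWLE.H22

open Pool.Agent.Helper14_MV Pool.Agent.Helper2_MV
open Pool.Agent.MWK (pre)

theorem cp_succ (s k : ℕ) :
    cp s (k + 1) = cp s k ++ [pin (s + k), con (s + k), con (s + k)] := by
  unfold cp
  rw [List.range_succ, List.flatMap_append]
  simp

theorem cp_split (s : ℕ) {i k : ℕ} (h : i < k) : ∃ B, cp s k = cp s i ++ pin (s + i) :: B := by
  induction k with
  | zero => omega
  | succ k ih =>
    rw [cp_succ]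
    rcases Nat.lt_succ_iff_lt_or_eq.1 h with h1 | h1
    · obtain ⟨B, hB⟩ := ih h1
      refine ⟨B ++ [pin (s + k), con (s + k), con (s + k)], ?_⟩
      rw [hB]
      simp
    · subst h1
      exact ⟨[con (s + i), con (s + i)], rfl⟩

theorem mem_cp {c s k : ℕ} (h : c ∈ cp s k) : ∃ j, s ≤ j ∧ j < s + k ∧ (c = pin j ∨ c = con j) := by
  unfold cp at h
  rw [List.mem_flatMap] at h
  obtain ⟨i, hi, hc⟩ := h
  rw [List.mem_range] at hi
  refine ⟨s + i, by omega, by omega, ?_⟩
  simp only [List.mem_cons, List.not_mem_nil, or_false] at hc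
  tauto

theorem mem_tl {c : ℕ} {σ : List ℕ} (h : c ∈ tl σ) : ∃ k ∈ σ, c = sep k ∨ c = pin k := by
  unfold tl at h
  rw [List.mem_flatMap] at h
  obtain ⟨i, hi, hc⟩ := h
  refine ⟨i, hi, ?_⟩
  simp only [List.mem_cons, List.not_mem_nil, or_false] at hc
  exact hc

theorem mem_N0 {c m : ℕ} (h : c ∈ N0 m) :
    c = 1 ∨ c = con 0 ∨ c = pin 0 ∨ ∃ j, 1 ≤ j ∧ j < 1 + m ∧ (c = pin j ∨ c = con j) := by
  unfold N0 at h
  simp only [List.mem_cons] at h
  rcases h with h | h | h | h | h
  · exact Or.inl h
  · exact Or.inr (Or.inl h)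
  · exact Or.inr (Or.inl h)
  · exact Or.inr (Or.inr (Or.inl h))
  · exact Or.inr (Or.inr (Or.inr (mem_cp h)))

theorem N0_mod {c m : ℕ} (h : c ∈ N0 m) : c % 5 ≠ 3 := by
  rcases mem_N0 h with h | h | h | ⟨j, _, _, h | h⟩
  · omega
  all_goals
    simp only [pin, con] at h
    omega

theorem wb_mod {c m : ℕ} (h : c ∈ wb m false false) : c % 5 ≠ 3 := by
  have e : wb m false false = N0 m ++ (0 :: con (m + 1) :: con (m + 1) :: pin (m + 1) :: 1 ::
      (cp (m + 2) m ++ [pin (2 * m + 2), 0])) := by
    simp [wb, Nx]
  rw [e] at h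
  simp only [List.mem_append, List.mem_cons, List.not_mem_nil, or_false] at h
  rcases h with h | h | h | h | h | h | h | h | h
  · exact N0_mod h
  · omega
  · simp only [con] at h
    omega
  · simp only [con] at h
    omega
  · simp only [pin] at h
    omega
  · omega
  · obtain ⟨j, _, _, h | h⟩ := mem_cp h <;> simp only [pin, con] at h <;> omega
  · simp only [pin] at h
    omega
  · omega

theorem sep_not_wb (m k : ℕ) : sep k ∉ wb m false false := by
  intro h
  apply wb_mod h
  simp only [sep]
  omega

theorem tl_append (a b : List ℕ) : tl (a ++ b) = tl a ++ tl b := by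
  unfold tl
  rw [List.flatMap_append]

theorem tl_cons (k : ℕ) (b : List ℕ) : tl (k :: b) = sep k :: pin k :: tl b := by
  unfold tl
  rw [List.flatMap_cons]
  rfl

theorem pin_not_N0 {m j : ℕ} (h : m < j) : pin j ∉ N0 m := by
  intro hm
  rcases mem_N0 hm with h1 | h1 | h1 | ⟨i, _, _, h1 | h1⟩ <;> simp only [pin, con] at h1 <;> omega

theorem pin_not_cp {s k j : ℕ} (h : s + k ≤ j) : pin j ∉ cp s k := by
  intro hm
  obtain ⟨i, _, _, h1 | h1⟩ := mem_cp hm <;> simp only [pin, con] at h1 <;> omega

theorem wd_form (σ : List ℕ) (m : ℕ) : wd σ m false false =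
    N0 m ++ (0 :: con (m + 1) :: con (m + 1) :: pin (m + 1) :: 1 ::
      (cp (m + 2) m ++ (pin (2 * m + 2) :: 0 :: tl σ))) := by
  simp [wd, wb, Nx]

/-- **PRC** -/
theorem prc : PrcStmt := by
  intro σ m
  refine ⟨?_, ?_, ?_, ?_, ?_, ?_⟩
  · have e : wd σ m false false = [1, con 0, con 0] ++ pin 0 ::
        (cp 1 m ++ (0 :: con (m + 1) :: con (m + 1) :: pin (m + 1) :: 1 ::
          (cp (m + 2) m ++ (pin (2 * m + 2) :: 0 :: tl σ)))) := by
      rw [wd_form]
      simp [N0]
    rw [e]
    apply MWK.pre_split
    simp [pin, con]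
  · intro i hi
    obtain ⟨B, hB⟩ := cp_split 1 hi
    have e : wd σ m false false = (1 :: con 0 :: con 0 :: pin 0 :: cp 1 i) ++ pin (1 + i) ::
        (B ++ (0 :: con (m + 1) :: con (m + 1) :: pin (m + 1) :: 1 ::
          (cp (m + 2) m ++ (pin (2 * m + 2) :: 0 :: tl σ)))) := by
      rw [wd_form, N0, hB]
      simp
    rw [e]
    apply MWK.pre_split
    intro h
    simp only [List.mem_cons] at h
    rcases h with h | h | h | h | h
    · simp only [pin] at h
      omega
    · simp only [pin, con] at h
      omega
    · simp only [pin, con] at h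
      omega
    · simp only [pin] at h
      omega
    · exact pin_not_cp (by omega) h
  · have e : wd σ m false false = (N0 m ++ [0, con (m + 1), con (m + 1)]) ++ pin (m + 1) :: 1 ::
          (cp (m + 2) m ++ (pin (2 * m + 2) :: 0 :: tl σ)) := by
      rw [wd_form]
      simp
    rw [e]
    apply MWK.pre_split
    intro h
    rcases List.mem_append.1 h with h | h
    · exact pin_not_N0 (by omega) h
    · simp only [List.mem_cons, List.not_mem_nil, or_false] at h
      rcases h with h | h | h <;> simp only [pin, con] at h <;> omega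
  · intro i hi
    have hne : pin (m + 2 + i) ∉
        N0 m ++ (0 :: con (m + 1) :: con (m + 1) :: pin (m + 1) :: 1 :: cp (m + 2) i) := by
      intro h
      rcases List.mem_append.1 h with h | h
      · exact pin_not_N0 (by omega) h
      · simp only [List.mem_cons] at h
        rcases h with h | h | h | h | h | h
        · simp only [pin] at h
          omega
        · simp only [pin, con] at h
          omega
        · simp only [pin, con] at h
          omega
        · simp only [pin] at h
          omega
        · simp only [pin] at h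
          omega
        · exact pin_not_cp (by omega) h
    rcases Nat.lt_or_eq_of_le hi with h1 | h1
    · obtain ⟨B, hB⟩ := cp_split (m + 2) h1
      have e : wd σ m false false =
          (N0 m ++ (0 :: con (m + 1) :: con (m + 1) :: pin (m + 1) :: 1 :: cp (m + 2) i)) ++
            pin (m + 2 + i) :: (B ++ (pin (2 * m + 2) :: 0 :: tl σ)) := by
        rw [wd_form, hB]
        simp
      rw [e]
      exact MWK.pre_split hne _
    · subst h1
      have e2 : 2 * i + 2 = i + 2 + i := by omega
      have e : wd σ i false false =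
          (N0 i ++ (0 :: con (i + 1) :: con (i + 1) :: pin (i + 1) :: 1 :: cp (i + 2) i)) ++
            pin (i + 2 + i) :: 0 :: tl σ := by
        rw [wd_form, e2]
        simp
      rw [e]
      exact MWK.pre_split hne _
  · intro hσ
    cases σ with
    | nil => exact absurd rfl hσ
    | cons k σ =>
      have e : wd (k :: σ) m false false = wb m false false ++ sep k :: (pin k :: tl σ) := by
        unfold wd
        rw [tl_cons]
      have e1 : t1 (k :: σ) = sep k := rfl
      rw [e, e1]
      exact MWK.pre_split (sep_not_wb m k) _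
  · intro k hk
    obtain ⟨B, hB⟩ := MWK.mem_split hk
    have e : wd σ m false false =
        (wb m false false ++ tl (pre σ k)) ++ sep k :: (pin k :: tl B) := by
      unfold wd
      conv_lhs => rw [hB, tl_append, tl_cons]
      simp only [List.append_assoc]
    rw [e]
    apply MWK.pre_split
    intro h
    rcases List.mem_append.1 h with h | h
    · exact sep_not_wb m k h
    · obtain ⟨j, hj, h1 | h1⟩ := mem_tl h
      · have : j = k := by
          simp only [sep] at h1
          omega
        subst this
        exact MWK.not_mem_pre σ j hj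
      · simp only [sep, pin] at h1
        omega

end Pool.Agent.MWLE.H22
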